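import Pool.Agent.H461Z.MC.Main

set_option autoImplicit false
set_option linter.unusedSectionVars false

namespace Pool.Agent.H461Z.MC

open Classical

section General

variable {L : Type} [AddCommGroup L] [LinearOrder L] [IsOrderedAddMonoid L]

/-- invariance of a set of cross ratios -/
def Inv (H : Subgroup (Equiv.Perm (Pt L))) (U : Set L) : Prop :=
  ∀ h ∈ H, ∀ x z y w, Adm x z y w → del x z y w ∈ U → del (h x) (h z) (h y) (h w) ∈ U

theorem Inv.le {H : Subgroup (Equiv.Perm (Pt L))} {U : Set L} (h : Inv H U) : H ≤ Aut U := by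
  intro g hg x z y w ha
  refine ⟨fun h1 => ?_, h g hg x z y w ha⟩
  simpa using h g⁻¹ (H.inv_mem hg) _ _ _ _ (ha.map g) h1

theorem del_add (x z y s w : Pt L) : del x z y s + del x z s w = del x z y w := by
  unfold del; abel

/-- iterated sums -/
def sums (U : Set L) : ℕ → Set L
  | 0 => U
  | n + 1 => {l | ∃ a ∈ sums U n, ∃ b ∈ U, l = a + b}

theorem inv_sums {H : Subgroup (Equiv.Perm (Pt L))} {U : Set L} (h : Inv H U) (n : ℕ) :
    Inv H (sums U n) := by
  induction n with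
  | zero => exact h
  | succ n ih =>
    rintro g hg x z y w ha ⟨a, ha1, b, hb, e⟩
    obtain ⟨s, h1, h2, h3⟩ := exists_mid ha.1 ha.2.1 ha.2.2.1 a
    have h4 : del x z s w = b := by
      have := del_add x z y s w
      rw [h3, e] at this
      exact add_left_cancel this
    refine ⟨_, ih g hg x z y s ⟨ha.1, ha.2.1, ha.2.2.1, h1, h2⟩ (h3 ▸ ha1), _,
      h g hg x z s w ⟨ha.1, h1, h2, ha.2.2.2.1, ha.2.2.2.2⟩ (h4 ▸ hb), (del_add _ _ _ _ _).symm⟩

theorem sums_up {U : Set L} (hU : ∀ a ∈ U, ∀ b, a ≤ b → b ∈ U) (n : ℕ) :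
    ∀ a ∈ sums U n, ∀ b, a ≤ b → b ∈ sums U n := by
  cases n with
  | zero => exact hU
  | succ n =>
    rintro _ ⟨a, ha, c, hc, rfl⟩ b hb
    exact ⟨a, ha, b - a, hU c hc _ (le_sub_iff_add_le'.mpr hb), by abel⟩

theorem sums_split {U : Set L} (m n : ℕ) :
    ∀ l ∈ sums U (m + n + 1), ∃ a ∈ sums U m, ∃ b ∈ sums U n, l = a + b := by
  induction n with
  | zero => intro l hl; exact hl
  | succ n ih =>
    rintro _ ⟨a, ha, c, hc, rfl⟩
    obtain ⟨a1, h1, b1, h2, rfl⟩ := ih a ha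
    exact ⟨a1, h1, b1 + c, ⟨b1, h2, c, hc, rfl⟩, by abel⟩

theorem smul_mem_sums {U : Set L} {u : L} (hu : u ∈ U) (n : ℕ) : (n + 1) • u ∈ sums U n := by
  induction n with
  | zero => simpa [sums] using hu
  | succ n ih => exact ⟨_, ih, u, hu, succ_nsmul u (n + 1)⟩

theorem le_of_sums {U : Set L} {e : L} (he : ∀ l ∈ U, e ≤ 2 • l) (n : ℕ) :
    ∀ l ∈ sums U n, (n + 1) • e ≤ 2 • l := by
  induction n with
  | zero => simpa [sums] using he
  | succ n ih =>
    rintro _ ⟨a, ha, b, hb, rfl⟩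
    rw [succ_nsmul e (n + 1), nsmul_add]
    exact add_le_add (ih a ha) (he b hb)

theorem aut_closed (U : Set L) (σ : Equiv.Perm (Pt L))
    (h : ∀ A : Finset (Pt L), ∃ g ∈ Aut U, ∀ a ∈ A, g a = σ a) : σ ∈ Aut U := by
  intro x z y w ha
  obtain ⟨g, hg, hA⟩ := h {x, z, y, w}
  rw [← hA x (by simp), ← hA z (by simp), ← hA y (by simp), ← hA w (by simp)]
  exact hg x z y w ha

theorem GG_closed (σ : Equiv.Perm (Pt L))
    (h : ∀ A : Finset (Pt L), ∃ g ∈ GG L, ∀ a ∈ A, g a = σ a) : σ ∈ GG L := by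
  intro x z y w ha
  obtain ⟨g, hg, hA⟩ := h {x, z, y, w}
  rw [← hA x (by simp), ← hA z (by simp), ← hA y (by simp), ← hA w (by simp)]
  exact hg x z y w ha

theorem std_quad {u : L} (hu : 0 < u) :
    Adm (some (0 : L →₀ ℤ)) (some (Finsupp.single 0 1)) (some (Finsupp.single u 1)) none ∧
    del (some (0 : L →₀ ℤ)) (some (Finsupp.single 0 1)) (some (Finsupp.single u 1)) none = u ∧
    val (Finsupp.single (0 : L) (1 : ℤ) - Finsupp.single u 1) = 0 := by
  have c1 : Finsupp.single (0 : L) (1 : ℤ) ≠ Finsupp.single u 1 ∧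
      val (Finsupp.single (0 : L) (1 : ℤ) - Finsupp.single u 1) = 0 :=
    val_zero_of (fun i hi => by
      rw [Finsupp.single_eq_of_ne hi.ne, Finsupp.single_eq_of_ne (hi.trans hu).ne]) (by
      rw [Finsupp.single_eq_of_ne hu.ne]; simp)
  refine ⟨⟨?_, ?_, fun e => c1.1 (Option.some.inj e), by simp, by simp⟩, ?_, c1.2⟩
  · intro e; have := (Option.some.inj e).symm; simp at this
  · intro e; have := (Option.some.inj e).symm; simp at this
  · simp only [del, rho_ss, rho_sn]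
    rw [c1.2, zero_sub, val_neg, val_single _ one_ne_zero]; simp

theorem aut_ne_top {V : Set L} (hpos : ∀ a ∈ V, 0 < a) (hne : V.Nonempty) : Aut V ≠ ⊤ := by
  obtain ⟨u, hu⟩ := hne
  obtain ⟨ha, hd, -⟩ := std_quad (hpos u hu)
  intro h
  have hm : Equiv.swap (some (Finsupp.single u (1 : ℤ))) none ∈ Aut V := by
    rw [h]; trivial
  have := (hm _ _ _ _ ha).mpr (by rw [hd]; exact hu)
  rw [Equiv.swap_apply_left, Equiv.swap_apply_right,
    Equiv.swap_apply_of_ne_of_ne ha.2.1 ha.2.2.2.1,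
    Equiv.swap_apply_of_ne_of_ne ha.2.2.1 ha.2.2.2.2] at this
  have h2 := del_add (some (0 : L →₀ ℤ)) (some (Finsupp.single 0 1)) (some (Finsupp.single u 1))
    none (some (Finsupp.single u 1))
  have h3 : del (some (0 : L →₀ ℤ)) (some (Finsupp.single 0 1)) (some (Finsupp.single u 1))
      (some (Finsupp.single u 1)) = 0 := by unfold del; abel
  rw [h3, hd] at h2
  have h4 := add_pos (hpos u hu) (hpos _ this)
  exact h4.ne' h2

theorem exists_sigma {U V : Set L} (hUpos : ∀ a ∈ U, 0 < a) (hpos : ∀ a ∈ V, 0 < a)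
    (hV : ∀ a ∈ V, ∀ b, a ≤ b → b ∈ V)
    (hsub : ∀ d ∈ V, ∀ c, 0 ≤ c → c ∉ V → d - c ∈ V) {u : L} (hu : u ∈ U) (huV : u ∉ V) :
    ∃ σ ∈ Aut V, σ ∉ Aut U := by
  have h0 : (0 : L) ∉ V := fun h => lt_irrefl _ (hpos 0 h)
  have hv1 : val (Finsupp.single (0 : L) (1 : ℤ) - 0) = 0 := by
    rw [sub_zero, val_single _ one_ne_zero]
  have h1 : Finsupp.single (0 : L) (1 : ℤ) - 0 ∉ cone V hV := by
    rintro (h | h)
    · simp at h
    · rw [hv1] at h; exact h0 h
  let Γ : AddSubgroup L :=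
    { carrier := {c | |c| ∉ V}
      zero_mem' := by simpa using h0
      neg_mem' := by intro c hc; simpa using hc
      add_mem' := by
        intro a b ha hb hab
        have := hsub _ (hV _ hab _ (abs_add_le a b)) _ (abs_nonneg a) ha
        rw [add_sub_cancel_left] at this
        exact hb this }
  have hΓ : ∀ d ∈ V, ∀ c ∈ Γ, d + c ∈ V := by
    intro d hd c hc
    refine hV _ (hsub d hd _ (abs_nonneg c) hc) _ ?_
    rw [sub_eq_add_neg]
    exact add_le_add_right (neg_abs_le c) d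
  set s := (swapFun_invol _ h1).toPerm with hs
  have hrho : ∀ a b : Pt L, a ≠ b → rho (s.optionCongr a) (s.optionCongr b) - rho a b ∈ Γ := by
    rintro (_ | a) (_ | b) hab
    · simp
    · simp
    · simp
    · have hne : a ≠ b := fun e => hab (by rw [e])
      show val (swapFun _ _ _ a - swapFun _ _ _ b) - val (a - b) ∈ Γ
      rcases swap_val V hV h1 hne with h | ⟨k1, k2, k3, k4⟩
      · rw [h, sub_self]; exact Γ.zero_mem
      · rw [hv1] at k1 k3
        apply Γ.sub_mem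
        · show |_| ∉ V
          rwa [abs_of_nonneg k1]
        · show |_| ∉ V
          rwa [abs_of_nonneg k3]
  refine ⟨s.optionCongr, ?_, ?_⟩
  · intro x z y w ⟨_, h2, h3, h4, h5⟩
    have hd : del (s.optionCongr x) (s.optionCongr z) (s.optionCongr y) (s.optionCongr w)
        - del x z y w ∈ Γ := by
      have := Γ.add_mem (Γ.sub_mem (Γ.sub_mem (hrho _ _ h2) (hrho _ _ h3)) (hrho _ _ h4))
        (hrho _ _ h5)
      convert this using 1
      unfold del; abel
    constructor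
    · intro h
      have := hΓ _ h _ (Γ.neg_mem hd)
      convert this using 1; abel
    · intro h
      have := hΓ _ h _ hd
      convert this using 1; abel
  · intro hm
    obtain ⟨ha, hd, hv⟩ := std_quad (hUpos u hu)
    have := (hm _ _ _ _ ha).mpr (by rw [hd]; exact hu)
    have e0 : s 0 = Finsupp.single 0 1 := by
      show swapFun _ _ _ _ = _
      unfold swapFun
      rw [if_pos (by rw [sub_self]; exact AddSubgroup.zero_mem _)]; simp
    have e1 : s (Finsupp.single 0 1) = 0 := by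
      rw [← e0]; exact swapFun_invol _ h1 0
    have e2 : s (Finsupp.single u 1) = Finsupp.single u 1 := by
      show swapFun _ _ _ _ = _
      unfold swapFun
      rw [if_neg, if_neg]
      · rintro (h | h)
        · exact ha.2.2.1 (by rw [sub_eq_zero.mp h])
        · rw [val_sub_comm, hv] at h; exact h0 h
      · rintro (h | h)
        · simp at h
        · rw [sub_zero, val_single _ one_ne_zero] at h; exact huV h
    simp only [Equiv.optionCongr_apply, Option.map_some, Option.map_none, e0, e1, e2, del, rho_ss,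
      rho_sn] at this
    rw [hv, zero_sub (Finsupp.single u (1 : ℤ)), val_neg, val_single _ one_ne_zero] at this
    have h5 := hUpos _ this
    have h6 := hUpos _ hu
    simp only [zero_sub, sub_zero, add_zero, Left.neg_pos_iff] at h5
    exact lt_asymm h5 h6

theorem no_max (h1 : ∀ u : L, ∃ l, ∀ N : ℕ, N • u ≤ l)
    (h2 : ∀ U : Set L, U.Nonempty → (∀ l ∈ U, 0 < l) →
      ∃ u ∈ U, ∃ e : L, ∃ N : ℕ, (∀ l ∈ U, e ≤ 2 • l) ∧ 2 • u < (N + 1) • e)
    (F : Subgroup (Equiv.Perm (Pt L)))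
    (hcl : ∀ σ : Equiv.Perm (Pt L), (∀ A : Finset (Pt L), ∃ g ∈ F, ∀ a ∈ A, g a = σ a) → σ ∈ F)
    (hG : GG L ≤ F) (hne : F ≠ ⊤) :
    ∃ V : Set L, F ≤ Aut V ∧ Aut V ≠ F ∧ Aut V ≠ ⊤ := by
  have hU := UU_nonempty hG hcl hne
  have hUpos : ∀ l ∈ UU F, 0 < l := fun l hl => hl.1
  have hUinv : Inv F (UU F) := fun h hh x z y w ha hd => UU_inv hG hh ha hd
  set V : Set L := {l | ∀ n, l ∈ sums (UU F) n} with hVdef
  have hVinv : Inv F V := fun h hh x z y w ha hd n => inv_sums hUinv n h hh x z y w ha (hd n)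
  have hVpos : ∀ l ∈ V, 0 < l := fun l hl => hUpos l (hl 0)
  have hVup : ∀ a ∈ V, ∀ b, a ≤ b → b ∈ V := fun a ha b hab n =>
    sums_up (UU_up hG) n a (ha n) b hab
  have hsub : ∀ d ∈ V, ∀ c, 0 ≤ c → c ∉ V → d - c ∈ V := by
    intro d hd c _ hc n
    obtain ⟨m, hm⟩ : ∃ m, c ∉ sums (UU F) m := by
      by_contra h; push Not at h; exact hc h
    obtain ⟨a, ha, b, hb, rfl⟩ := sums_split m n d (hd _)
    have hca : c ≤ a := by
      by_contra h
      exact hm (sums_up (UU_up hG) m a ha c (not_le.mp h).le)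
    refine sums_up (UU_up hG) n b hb _ ?_
    rw [add_sub_right_comm]
    exact le_add_of_nonneg_left (sub_nonneg.mpr hca)
  obtain ⟨u, hu, e, N, he, hN⟩ := h2 _ hU hUpos
  have huV : u ∉ V := fun h => absurd (le_of_sums he N u (h N)) (not_le.mpr hN)
  obtain ⟨σ, hσ1, hσ2⟩ := exists_sigma hUpos hVpos hVup hsub hu huV
  refine ⟨V, hVinv.le, fun h => hσ2 (hUinv.le (h ▸ hσ1)), aut_ne_top hVpos ?_⟩
  obtain ⟨l, hl⟩ := h1 u
  exact ⟨l, fun n => sums_up (UU_up hG) n _ (smul_mem_sums hu n) _ (hl _)⟩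

theorem GG_ne_top {u : L} (hu : 0 < u) : GG L ≠ ⊤ := by
  intro h
  apply aut_ne_top (V := Set.Ioi (0 : L)) (fun _ h => h) ⟨u, hu⟩
  rw [eq_top_iff, ← h]
  intro g hg x z y w ha
  rw [hg x z y w ha]

end General

/-- the value group -/
abbrev Lam : Type := Lex (ℕᵒᵈ →₀ ℤ)

theorem lam_pos {a : Lam} : 0 < a ↔ ∃ i : ℕᵒᵈ, (∀ j, j < i → ofLex a j = 0) ∧ 0 < ofLex a i := by
  rw [Finsupp.Lex.lt_iff]
  simp only [ofLex_zero, Finsupp.coe_zero, Pi.zero_apply]
  constructor <;> rintro ⟨i, h1, h2⟩ <;> exact ⟨i, fun j hj => (h1 j hj).symm, h2⟩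

theorem lam_bound (a : Lam) : ∃ n : ℕ, ∀ j : ℕᵒᵈ, j < OrderDual.toDual n → ofLex a j = 0 := by
  obtain ⟨n, hn⟩ := ((ofLex a).support.image OrderDual.ofDual).bddAbove
  refine ⟨n, fun j hj => ?_⟩
  by_contra h
  have := hn (Finset.mem_coe.mpr (Finset.mem_image_of_mem _ (Finsupp.mem_support_iff.mpr h)))
  exact absurd this (not_le.mpr hj)

theorem lam_smul (N : ℕ) (a : Lam) (j : ℕᵒᵈ) : ofLex (N • a) j = (N : ℤ) * ofLex a j := by
  induction N with
  | zero => simp
  | succ N ih => rw [succ_nsmul, ofLex_add, Finsupp.add_apply, ih]; push_cast; ring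

theorem lam_sub (a b : Lam) (j : ℕᵒᵈ) : ofLex (a - b) j = ofLex a j - ofLex b j := rfl

/-- basis vectors -/
noncomputable def bas (i : ℕᵒᵈ) : Lam := toLex (Finsupp.single i 1)

theorem bas_same (i : ℕᵒᵈ) : ofLex (bas i) i = 1 := Finsupp.single_eq_same

theorem bas_ne {i j : ℕᵒᵈ} (h : j ≠ i) : ofLex (bas i) j = 0 := Finsupp.single_eq_of_ne h

theorem lam1 (u : Lam) : ∃ l, ∀ N : ℕ, N • u ≤ l := by
  obtain ⟨n, hn⟩ := lam_bound u
  refine ⟨bas (OrderDual.toDual (n + 1)), fun N => ?_⟩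
  apply le_of_lt
  rw [← sub_pos, lam_pos]
  have hlt : OrderDual.toDual (n + 1) < OrderDual.toDual n := Nat.lt_succ_self n
  refine ⟨OrderDual.toDual (n + 1), fun j hj => ?_, ?_⟩
  · rw [lam_sub, lam_smul, bas_ne hj.ne, hn j (hj.trans hlt)]; simp
  · rw [lam_sub, lam_smul, bas_same, hn _ hlt]; simp

theorem lam2 (U : Set Lam) (hne : U.Nonempty) (hpos : ∀ l ∈ U, 0 < l) :
    ∃ u ∈ U, ∃ e : Lam, ∃ N : ℕ, (∀ l ∈ U, e ≤ 2 • l) ∧ 2 • u < (N + 1) • e := by
  have hex : ∃ n : ℕ, ∃ u ∈ U, ∀ j : ℕᵒᵈ, j < OrderDual.toDual n → ofLex u j = 0 := by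
    obtain ⟨u, hu⟩ := hne
    obtain ⟨n, hn⟩ := lam_bound u
    exact ⟨n, u, hu, hn⟩
  obtain ⟨u, hu, hun⟩ := Nat.find_spec hex
  set n := Nat.find hex with hn
  refine ⟨u, hu, bas (OrderDual.toDual n),
    2 * (ofLex u (OrderDual.toDual n)).natAbs, fun l hl => ?_, ?_⟩
  · obtain ⟨i, h1, h2⟩ := lam_pos.mp (hpos l hl)
    have hi : n ≤ OrderDual.ofDual i := Nat.find_min' hex ⟨l, hl, h1⟩
    have hi' : i ≤ OrderDual.toDual n := hi
    apply le_of_lt
    rw [← sub_pos, lam_pos]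
    refine ⟨i, fun j hj => ?_, ?_⟩
    · rw [lam_sub, lam_smul, bas_ne (lt_of_lt_of_le hj hi').ne, h1 j hj]; simp
    · rw [lam_sub, lam_smul]
      rcases hi'.eq_or_lt with h | h
      · rw [← h, bas_same]; push_cast; omega
      · rw [bas_ne h.ne]; push_cast; omega
  · rw [← sub_pos, lam_pos]
    refine ⟨OrderDual.toDual n, fun j hj => ?_, ?_⟩
    · rw [lam_sub, lam_smul, lam_smul, bas_ne hj.ne, hun j hj]; simp
    · rw [lam_sub, lam_smul, lam_smul, bas_same]
      omega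

theorem lam_exists_pos : ∃ u : Lam, 0 < u :=
  ⟨bas (OrderDual.toDual 0), lam_pos.mpr ⟨OrderDual.toDual 0,
    fun _ hj => bas_ne hj.ne, by rw [bas_same]; exact one_pos⟩⟩

theorem countable_pt : Countable (Pt Lam) := by
  have : Countable Lam := inferInstanceAs (Countable (ℕ →₀ ℤ))
  infer_instance

end Pool.Agent.H461Z.MC
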