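import Pool.Agent.H461Z.MC.Val

set_option autoImplicit false
set_option linter.unusedSectionVars false

namespace Pool.Agent.H461Z.MC

open Classical

variable {L : Type} [AddCommGroup L] [LinearOrder L] [IsOrderedAddMonoid L]

/-- the points -/
abbrev Pt (L : Type) := Option (L →₀ ℤ)

/-- logarithmic chordal form -/
noncomputable def rho : Pt L → Pt L → L
  | some x, some y => val (x - y)
  | some _, none => 0
  | none, _ => 0

@[simp] theorem rho_ss (x y : L →₀ ℤ) : rho (some x) (some y) = val (x - y) := rfl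
@[simp] theorem rho_sn (x : Pt L) : rho x none = 0 := by cases x <;> rfl
@[simp] theorem rho_ns (x : Pt L) : rho none x = 0 := rfl

/-- cross ratio -/
noncomputable def del (x z y w : Pt L) : L := rho x y - rho z y - rho x w + rho z w

/-- admissible quadruple -/
def Adm (x z y w : Pt L) : Prop := x ≠ z ∧ x ≠ y ∧ z ≠ y ∧ x ≠ w ∧ z ≠ w

theorem Adm.map {x z y w : Pt L} (h : Adm x z y w) (g : Equiv.Perm (Pt L)) :
    Adm (g x) (g z) (g y) (g w) :=
  ⟨g.injective.ne h.1, g.injective.ne h.2.1, g.injective.ne h.2.2.1, g.injective.ne h.2.2.2.1,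
    g.injective.ne h.2.2.2.2⟩

/-- permutations preserving the cross ratio -/
def GG (L : Type) [AddCommGroup L] [LinearOrder L] [IsOrderedAddMonoid L] :
    Subgroup (Equiv.Perm (Pt L)) where
  carrier := {g | ∀ x z y w, Adm x z y w → del (g x) (g z) (g y) (g w) = del x z y w}
  one_mem' := fun _ _ _ _ _ => rfl
  mul_mem' := by
    intro g h hg hh x z y w ha
    simp only [Equiv.Perm.mul_apply]
    rw [hg _ _ _ _ (ha.map h), hh _ _ _ _ ha]
  inv_mem' := by
    intro g hg x z y w ha
    have := hg _ _ _ _ (ha.map g⁻¹)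
    simpa using this.symm

/-- permutations preserving membership of the cross ratio in a set -/
def Aut (U : Set L) : Subgroup (Equiv.Perm (Pt L)) where
  carrier := {g | ∀ x z y w, Adm x z y w → (del (g x) (g z) (g y) (g w) ∈ U ↔ del x z y w ∈ U)}
  one_mem' := fun _ _ _ _ _ => Iff.rfl
  mul_mem' := by
    intro g h hg hh x z y w ha
    simp only [Equiv.Perm.mul_apply]
    rw [hg _ _ _ _ (ha.map h), hh _ _ _ _ ha]
  inv_mem' := by
    intro g hg x z y w ha
    have := hg _ _ _ _ (ha.map g⁻¹)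
    simpa using this.symm

theorem mem_GG_of' (g : Equiv.Perm (Pt L)) (b c : Pt L → L)
    (h : ∀ x y, x ≠ y → rho (g x) (g y) = rho x y + b x + c y) : g ∈ GG L := by
  intro x z y w ⟨_, h2, h3, h4, h5⟩
  unfold del
  rw [h _ _ h2, h _ _ h3, h _ _ h4, h _ _ h5]; abel

theorem mem_GG_of (g : Equiv.Perm (Pt L)) (b : Pt L → L)
    (h : ∀ x y, x ≠ y → rho (g x) (g y) = rho x y + b x + b y) : g ∈ GG L :=
  mem_GG_of' g b b h

theorem isom_mem {g : Equiv.Perm (L →₀ ℤ)} (hg : Isom g) : g.optionCongr ∈ GG L := by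
  apply mem_GG_of _ (fun _ => 0)
  rintro (_ | x) (_ | y) hxy
  · simp
  · simp
  · simp
  · have : x ≠ y := fun e => hxy (by rw [e])
    simp [hg _ _ this]

/-- inversion -/
noncomputable def invFun : Pt L → Pt L
  | none => some 0
  | some f => if f = 0 then none else some (shift (-(val f + val f)) f)

theorem val_inv {f : L →₀ ℤ} (hf : f ≠ 0) : val (shift (-(val f + val f)) f) = -val f := by
  rw [val_shift _ hf]; abel

theorem invFun_invol : Function.Involutive (invFun (L := L)) := by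
  rintro (_ | f)
  · simp [invFun]
  · by_cases hf : f = 0
    · simp [invFun, hf]
    · simp only [invFun, if_neg hf, if_neg (shift_ne hf)]
      rw [val_inv hf, shift_shift]
      congr 1
      have : -(-val f + -val f) + -(val f + val f) = 0 := by abel
      rw [this, shift_zero]

theorem val_inv_sub {f g : L →₀ ℤ} (hf : f ≠ 0) (hg : g ≠ 0) (hfg : f ≠ g) (h : val f ≤ val g) :
    val (shift (-(val f + val f)) f - shift (-(val g + val g)) g) =
      val (f - g) - val f - val g := by
  rcases h.eq_or_lt with h | h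
  · rw [← h, ← map_sub, val_shift _ (sub_ne_zero.mpr hfg)]; abel
  · have h1 : val (f - g) = val f := by
      rw [sub_eq_add_neg]
      refine (val_add_eq hf fun i hi => ?_).2
      rw [Finsupp.neg_apply, (val_spec hg).2 i (lt_of_le_of_lt hi h), neg_zero]
    rw [val_sub_comm, sub_eq_add_neg, (val_add_eq (shift_ne hg) fun i hi => ?_).2, val_inv hg, h1]
    · abel
    · rw [val_inv hg] at hi
      rw [Finsupp.neg_apply, (val_spec (shift_ne hf)).2 i, neg_zero]
      rw [val_inv hf]
      exact lt_of_le_of_lt hi (neg_lt_neg h)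

theorem inv_mem : (invFun_invol (L := L)).toPerm ∈ GG L := by
  apply mem_GG_of _ (fun x => match x with
    | none => 0
    | some f => if f = 0 then 0 else -val f)
  rintro (_ | x) (_ | y) hxy
  · exact absurd rfl hxy
  · by_cases hy : y = 0
    · simp [invFun, hy]
    · have := val_inv hy
      simp only [neg_add_rev] at this
      simp [invFun, hy, val_neg, this]
  · by_cases hx : x = 0
    · simp [invFun, hx]
    · have := val_inv hx
      simp only [neg_add_rev] at this
      simp [invFun, hx, this]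
  · have hne : x ≠ y := fun e => hxy (by rw [e])
    by_cases hx : x = 0
    · have hy : y ≠ 0 := fun e => hne (hx.trans e.symm)
      simp [invFun, hx, hy, val_neg]
    · by_cases hy : y = 0
      · simp [invFun, hx, hy]
      · simp only [Function.Involutive.coe_toPerm, invFun, if_neg hx, if_neg hy, rho_ss]
        rcases le_total (val x) (val y) with h | h
        · rw [val_inv_sub hx hy hne h]; abel
        · rw [val_sub_comm, val_inv_sub hy hx hne.symm h, val_sub_comm]; abel

theorem exists_none (c : Pt L) : ∃ k ∈ GG L, k c = none := by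
  rcases c with _ | c
  · exact ⟨1, (GG L).one_mem, rfl⟩
  · have hi : Isom (Equiv.subRight c) := by
      intro a b _; simp
    refine ⟨(invFun_invol (L := L)).toPerm * (Equiv.subRight c).optionCongr,
      (GG L).mul_mem inv_mem (isom_mem hi), ?_⟩
    simp [invFun]

theorem shift_mem (c : L) : (shift c).toEquiv.optionCongr ∈ GG L := by
  apply mem_GG_of' _ (fun x => match x with
    | none => 0
    | some _ => c) (fun x => match x with
    | none => -c
    | some _ => 0)
  rintro (_ | x) (_ | y) hxy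
  · exact absurd rfl hxy
  · simp
  · simp
  · have hne : x ≠ y := fun e => hxy (by rw [e])
    have : val (shift c x - shift c y) = val (x - y) + c := by
      rw [← map_sub, val_shift _ (sub_ne_zero.mpr hne)]
    simpa using this

theorem val_sub_of_lt {f g : L →₀ ℤ} (hf : f ≠ 0) (hg : g ≠ 0) (h : val f < val g) :
    val (f - g) = val f := by
  rw [sub_eq_add_neg]
  refine (val_add_eq hf fun i hi => ?_).2
  rw [Finsupp.neg_apply, (val_spec hg).2 i (lt_of_le_of_lt hi h), neg_zero]

theorem normal {x z y w : Pt L} (ha : Adm x z y w) (hl : 0 < del x z y w) (c : L) :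
    ∃ g ∈ GG L, g x = some 0 ∧ g z = some (Finsupp.single c 1) ∧
      g y = some (Finsupp.single (c + del x z y w) 1) ∧ g w = none := by
  have hyw : y ≠ w := by
    rintro rfl
    apply hl.ne'
    unfold del; abel
  obtain ⟨k, hk, hkw⟩ := exists_none w
  have ha' := ha.map k
  have hd := hk _ _ _ _ ha
  have hyw' := k.injective.ne hyw
  rw [hkw] at ha' hd hyw'
  obtain ⟨x1, hx⟩ := Option.ne_none_iff_exists'.mp ha'.2.2.2.1
  obtain ⟨z1, hz⟩ := Option.ne_none_iff_exists'.mp ha'.2.2.2.2
  obtain ⟨y1, hy⟩ := Option.ne_none_iff_exists'.mp hyw'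
  rw [hx, hz, hy] at ha' hd
  have h1 : x1 ≠ z1 := fun e => ha'.1 (by rw [e])
  have h2 : x1 ≠ y1 := fun e => ha'.2.1 (by rw [e])
  have h3 : z1 ≠ y1 := fun e => ha'.2.2.1 (by rw [e])
  set l := del x z y w with hl'
  have hd' : val (x1 - y1) = val (z1 - y1) + l := by
    rw [← hd]; simp [del]
  have h4 : val (z1 - x1) = val (z1 - y1) := by
    have := val_sub_of_lt (sub_ne_zero.mpr h3) (sub_ne_zero.mpr h2)
      (by rw [hd']; exact lt_add_of_pos_right _ hl)
    rwa [sub_sub_sub_cancel_right] at this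
  set d := c - val (z1 - y1) with hdd
  have hv : ∀ a b : L →₀ ℤ, a ≠ b → val (shift d a - shift d b) = val (a - b) + d := by
    intro a b hab
    rw [← map_sub, val_shift _ (sub_ne_zero.mpr hab)]
  have hs1 : (Finsupp.single c (1 : ℤ)) ≠ 0 := by simp
  have hs2 : (Finsupp.single (c + l) (1 : ℤ)) ≠ 0 := by simp
  have hs3 : val (Finsupp.single c (1 : ℤ) - Finsupp.single (c + l) 1) = c := by
    rw [val_sub_of_lt hs1 hs2, val_single _ one_ne_zero]
    rw [val_single _ one_ne_zero, val_single _ one_ne_zero]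
    exact lt_add_of_pos_right _ hl
  have hs4 : Finsupp.single c (1 : ℤ) ≠ Finsupp.single (c + l) 1 := by
    intro e
    have := congrArg val e
    rw [val_single _ one_ne_zero, val_single _ one_ne_zero] at this
    exact (lt_add_of_pos_right c hl).ne this
  have n1 : shift d x1 ≠ shift d z1 := (shift d).injective.ne h1
  have n2 : shift d x1 ≠ shift d y1 := (shift d).injective.ne h2
  have n3 : shift d z1 ≠ shift d y1 := (shift d).injective.ne h3
  have v1 : val (shift d z1 - shift d x1) = c := by rw [hv _ _ h1.symm, h4, hdd]; abel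
  have v2 : val (shift d y1 - shift d x1) = c + l := by
    rw [hv _ _ h2.symm, val_sub_comm, hd', hdd]; abel
  have v3 : val (shift d z1 - shift d y1) = c := by rw [hv _ _ h3, hdd]; abel
  obtain ⟨g, hg, hgS⟩ := homog {shift d x1, shift d z1, shift d y1}
    (fun u => if u = shift d x1 then 0 else if u = shift d z1 then Finsupp.single c 1
      else Finsupp.single (c + l) 1) (by
    intro a ha b hb hab
    simp only [Finset.mem_insert, Finset.mem_singleton] at ha hb
    rcases ha with rfl | rfl | rfl <;> rcases hb with rfl | rfl | rfl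
    all_goals first
      | exact absurd rfl hab
      | skip
    all_goals simp only [if_pos, if_neg n1.symm, if_neg n2.symm, if_neg n3.symm]
    · exact ⟨hs1.symm, by rw [val_sub_comm, sub_zero, val_single _ one_ne_zero, val_sub_comm, v1]⟩
    · exact ⟨hs2.symm, by rw [val_sub_comm, sub_zero, val_single _ one_ne_zero, val_sub_comm, v2]⟩
    · exact ⟨hs1, by rw [sub_zero, val_single _ one_ne_zero, v1]⟩
    · exact ⟨hs4, by rw [hs3, v3]⟩
    · exact ⟨hs2, by rw [sub_zero, val_single _ one_ne_zero, v2]⟩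
    · exact ⟨hs4.symm, by rw [val_sub_comm, hs3, val_sub_comm, v3]⟩)
  refine ⟨g.optionCongr * (shift d).toEquiv.optionCongr * k,
    (GG L).mul_mem ((GG L).mul_mem (isom_mem hg) (shift_mem d)) hk, ?_, ?_, ?_, ?_⟩
  · have := hgS (shift d x1) (by simp)
    simp only [if_pos] at this
    simp [hx, this]
  · have := hgS (shift d z1) (by simp)
    simp only [if_pos, if_neg n1.symm] at this
    simp [hz, this]
  · have := hgS (shift d y1) (by simp)
    simp only [if_neg n2.symm, if_neg n3.symm] at this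
    simp [hy, this]
  · simp [hkw]

theorem exists_mid {x z y : Pt L} (h1 : x ≠ z) (h2 : x ≠ y) (h3 : z ≠ y) (l : L) :
    ∃ s, x ≠ s ∧ z ≠ s ∧ del x z y s = l := by
  obtain ⟨k, hk, hkz⟩ := exists_none z
  have hx' : k x ≠ none := hkz ▸ k.injective.ne h1
  obtain ⟨x1, hx⟩ := Option.ne_none_iff_exists'.mp hx'
  set c := rho (k x) (k y) - l
  have e : k (k⁻¹ (some (x1 - Finsupp.single c 1))) = some (x1 - Finsupp.single c 1) := by simp
  have a1 : x ≠ k⁻¹ (some (x1 - Finsupp.single c 1)) := by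
    intro h
    have := congrArg k h
    rw [e, hx] at this
    have h0 := Option.some.inj this
    have : Finsupp.single c (1 : ℤ) = 0 := by
      have := sub_eq_self.mp h0.symm
      exact this
    simp at this
  have a2 : z ≠ k⁻¹ (some (x1 - Finsupp.single c 1)) := by
    intro h
    have := congrArg k h
    rw [e, hkz] at this
    cases this
  refine ⟨_, a1, a2, ?_⟩
  rw [← hk _ _ _ _ ⟨h1, h2, h3, a1, a2⟩, e, hkz]
  unfold del
  rw [rho_ns, rho_ns]
  conv_lhs => rw [hx, rho_ss, sub_sub_cancel, val_single _ one_ne_zero, ← hx]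
  simp [c]

/-- Jordan sets -/
def Jordan (H : Subgroup (Equiv.Perm (Pt L))) (X : Set (Pt L)) : Prop :=
  ∀ x ∈ X, ∀ y ∈ X, ∃ g ∈ H, g x = y ∧ ∀ z, z ∉ X → g z = z

theorem Jordan.mono {H H' : Subgroup (Equiv.Perm (Pt L))} {X : Set (Pt L)} (h : Jordan H X)
    (hH : H ≤ H') : Jordan H' X := by
  intro x hx y hy
  obtain ⟨g, hg, h1, h2⟩ := h x hx y hy
  exact ⟨g, hH hg, h1, h2⟩

theorem Jordan.preimage {H : Subgroup (Equiv.Perm (Pt L))} {X : Set (Pt L)} (h : Jordan H X)
    {k : Equiv.Perm (Pt L)} (hk : k ∈ H) : Jordan H (k ⁻¹' X) := by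
  intro x hx y hy
  obtain ⟨g, hg, h1, h2⟩ := h _ hx _ hy
  refine ⟨k⁻¹ * g * k, H.mul_mem (H.mul_mem (H.inv_mem hk) hg) hk, by simp [h1], fun z hz => ?_⟩
  simp [h2 (k z) hz]

theorem jordan_of {X : Set (Pt L)} {c : Pt L} (hc : c ∉ X)
    (hX : ∀ x ∈ X, ∀ y ∈ X, ∀ z, Adm x c z y → 0 < del x c z y → z ∈ X) : Jordan (GG L) X := by
  intro x hx y hy
  by_cases hxy : x = y
  · exact ⟨1, (GG L).one_mem, hxy, fun _ _ => rfl⟩
  obtain ⟨k, hk, hkc⟩ := exists_none c
  have hxc : x ≠ c := fun e => hc (e ▸ hx)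
  have hyc : y ≠ c := fun e => hc (e ▸ hy)
  obtain ⟨x1, hx1⟩ := Option.ne_none_iff_exists'.mp (hkc ▸ k.injective.ne hxc : k x ≠ none)
  obtain ⟨y1, hy1⟩ := Option.ne_none_iff_exists'.mp (hkc ▸ k.injective.ne hyc : k y ≠ none)
  have hne : x1 ≠ y1 := by
    intro e
    apply hxy
    apply k.injective
    rw [hx1, hy1, e]
  obtain ⟨s, hs, hs1, hs2⟩ := exists_swap hne
  refine ⟨k⁻¹ * s.optionCongr * k,
    (GG L).mul_mem ((GG L).mul_mem ((GG L).inv_mem hk) (isom_mem hs)) hk, ?_, fun z hz => ?_⟩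
  · simp [hx1, hs1, ← hy1]
  · by_cases hzc : z = c
    · subst hzc
      simp only [Equiv.Perm.mul_apply, hkc]
      rw [Equiv.Perm.inv_eq_iff_eq, hkc]; rfl
    obtain ⟨z1, hz1⟩ := Option.ne_none_iff_exists'.mp (hkc ▸ k.injective.ne hzc : k z ≠ none)
    have hzx : x ≠ z := fun e => hz (e ▸ hx)
    have hzy : y ≠ z := fun e => hz (e ▸ hy)
    have key : ∀ a ∈ X, ∀ b ∈ X, a ≠ b → ∀ a1 b1, k a = some a1 → k b = some b1 →
        val (z1 - a1) ≤ val (a1 - b1) := by
      intro a ha b hb hab a1 b1 ha1 hb1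
      have hac : a ≠ c := fun e => hc (e ▸ ha)
      have hbc : b ≠ c := fun e => hc (e ▸ hb)
      have haz : a ≠ z := fun e => hz (e ▸ ha)
      have hadm : Adm a c z b := ⟨hac, haz, Ne.symm hzc, hab, hbc.symm⟩
      by_contra hlt
      apply hz
      apply hX a ha b hb z hadm
      rw [← hk _ _ _ _ hadm, ha1, hb1, hkc, hz1]
      simp only [del, rho_ss, rho_ns, sub_zero, add_zero, sub_pos]
      rw [val_sub_comm a1 z1]
      exact not_le.mp hlt
    have e : s z1 = z1 := by
      apply hs2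
      · intro e; apply hzx; apply k.injective; rw [hx1, hz1, e]
      · intro e; apply hzy; apply k.injective; rw [hy1, hz1, e]
      · exact key x hx y hy hxy _ _ hx1 hy1
      · rw [val_sub_comm x1 y1]; exact key y hy x hx (Ne.symm hxy) _ _ hy1 hx1
    simp only [Equiv.Perm.mul_apply, hz1]
    rw [Equiv.Perm.inv_eq_iff_eq, hz1]; simp [e]

/-- union of open balls -/
def PS (S : Set (L →₀ ℤ)) (c : L) : Set (Pt L) :=
  {p | ∃ u, p = some u ∧ ∃ a ∈ S, ∀ i, i ≤ c → u i = a i}

theorem some_mem_PS {S : Set (L →₀ ℤ)} {c : L} {u : L →₀ ℤ} :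
    some u ∈ PS S c ↔ ∃ a ∈ S, ∀ i, i ≤ c → u i = a i := by
  simp [PS]

theorem none_mem_PS {S : Set (L →₀ ℤ)} {c : L} : none ∉ PS S c := by
  simp [PS]

theorem le_val_sub {f g : L →₀ ℤ} (h : f ≠ g) {c : L} :
    c ≤ val (f - g) ↔ ∀ i, i < c → f i = g i := by
  rw [le_val (sub_ne_zero.mpr h)]
  simp only [Finsupp.sub_apply, sub_eq_zero]

theorem lt_val_sub {f g : L →₀ ℤ} (h : f ≠ g) {c : L} :
    c < val (f - g) ↔ ∀ i, i ≤ c → f i = g i := by
  rw [lt_val (sub_ne_zero.mpr h)]
  simp only [Finsupp.sub_apply, sub_eq_zero]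

theorem jordan_PS {S : Set (L →₀ ℤ)} {c : L} (hS : ∀ a ∈ S, ∀ b ∈ S, ∀ i, i < c → a i = b i) :
    Jordan (GG L) (PS S c) := by
  apply jordan_of none_mem_PS
  rintro _ ⟨x, rfl, a, ha, hxa⟩ _ ⟨y, rfl, b, hb, hyb⟩ z hadm hd
  obtain ⟨z1, rfl⟩ := Option.ne_none_iff_exists'.mp hadm.2.2.1.symm
  have h1 : x ≠ z1 := fun e => hadm.2.1 (by rw [e])
  have h2 : x ≠ y := fun e => hadm.2.2.2.1 (by rw [e])
  simp only [del, rho_ss, rho_ns, sub_zero, add_zero, sub_pos] at hd
  have h3 : c ≤ val (x - y) := by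
    rw [le_val_sub h2]
    intro i hi
    rw [hxa i hi.le, hyb i hi.le, hS a ha b hb i hi]
  have h4 := (lt_val_sub h1).mp (lt_of_le_of_lt h3 hd)
  exact some_mem_PS.mpr ⟨a, ha, fun i hi => by rw [← h4 i hi, hxa i hi]⟩

theorem jordan_PS_compl {S : Set (L →₀ ℤ)} {c : L} {a0 : L →₀ ℤ} (h0 : a0 ∈ S)
    (hS : ∀ a ∈ S, ∀ b ∈ S, ∀ i, i < c → a i = b i) : Jordan (GG L) (PS S c)ᶜ := by
  apply jordan_of (c := some a0)
  · simp only [Set.mem_compl_iff, not_not]
    exact some_mem_PS.mpr ⟨a0, h0, fun _ _ => rfl⟩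
  intro x hx y hy z hadm hd
  rintro ⟨z1, rfl, a, ha, hza⟩
  have h1 : a0 ≠ z1 := fun e => hadm.2.2.1 (by rw [e])
  have h2 : c ≤ val (a0 - z1) := by
    rw [le_val_sub h1]
    intro i hi
    rw [hza i hi.le, hS a ha a0 h0 i hi]
  have key : ∀ u, some u ∈ (PS S c)ᶜ → (u ≠ a0 ∧ val (a0 - u) ≤ c) ∧ u ≠ z1 ∧ val (u - z1) ≤ c := by
    intro u hu
    have hu' : ¬ ∃ a ∈ S, ∀ i, i ≤ c → u i = a i := fun h => hu (some_mem_PS.mpr h)
    have e1 : u ≠ a0 := fun e => hu' ⟨a0, h0, fun i _ => by rw [e]⟩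
    have e2 : u ≠ z1 := fun e => hu' ⟨a, ha, fun i hi => by rw [e, hza i hi]⟩
    refine ⟨⟨e1, ?_⟩, e2, ?_⟩
    · by_contra h
      have := (lt_val_sub e1.symm).mp (not_le.mp h)
      exact hu' ⟨a0, h0, fun i hi => (this i hi).symm⟩
    · by_contra h
      have := (lt_val_sub e2).mp (not_le.mp h)
      exact hu' ⟨a, ha, fun i hi => (this i hi).trans (hza i hi)⟩
  apply absurd hd
  rw [not_lt]
  rcases x with _ | x <;> rcases y with _ | y
  · exact absurd rfl hadm.2.2.2.1
  · have := (key y hy).1.2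
    simp only [del, rho_ss, rho_ns, sub_zero, zero_sub]
    have := this.trans h2
    rw [neg_add_eq_sub]; exact sub_nonpos.mpr this
  · have := (key x hx).2.2
    simp only [del, rho_ss, rho_sn, sub_zero, add_zero]
    exact sub_nonpos.mpr (this.trans h2)
  · obtain ⟨-, e1, k1⟩ := key x hx
    obtain ⟨⟨e2, k2⟩, -⟩ := key y hy
    have hxy : x ≠ y := fun e => hadm.2.2.2.1 (by rw [e])
    simp only [del, rho_ss]
    have h3 : min (val (x - z1)) (val (a0 - y)) ≤ val (x - y) := by
      rw [le_val_sub hxy]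
      intro i hi
      have i1 := lt_of_lt_of_le hi (min_le_left _ _)
      have i2 := lt_of_lt_of_le hi (min_le_right _ _)
      rw [(le_val_sub e1).mp le_rfl i i1, ← (le_val_sub e2.symm).mp le_rfl i i2,
        (le_val_sub h1).mp le_rfl i (lt_of_lt_of_le i1 (k1.trans h2))]
    have e : val (x - z1) - val (a0 - z1) - val (x - y) + val (a0 - y) =
        (val (x - z1) + val (a0 - y)) - (val (a0 - z1) + val (x - y)) := by abel
    rw [e, sub_nonpos]
    rcases min_choice (val (x - z1)) (val (a0 - y)) with h | h <;> rw [h] at h3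
    · rw [add_comm]; exact add_le_add (k2.trans h2) h3
    · exact add_le_add (k1.trans h2) h3

end Pool.Agent.H461Z.MC
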