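import Pool.Agent.H461Z.MC.Grp

set_option autoImplicit false
set_option linter.unusedSectionVars false

namespace Pool.Agent.H461Z.MC

open Classical

variable {L : Type} [AddCommGroup L] [LinearOrder L] [IsOrderedAddMonoid L]

theorem split {x z y w : Pt L} (ha : Adm x z y w) (hyw : y ≠ w) (hd : del x z y w ≤ 0) :
    ∃ P : Set (Pt L), Jordan (GG L) P ∧ Jordan (GG L) Pᶜ ∧ (x ∈ P ↔ y ∉ P) ∧ (z ∈ P ↔ w ∉ P) := by
  obtain ⟨k, hk, hkw⟩ := exists_none w
  have ha' := ha.map k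
  have hd' := hk _ _ _ _ ha
  have hyw' := k.injective.ne hyw
  rw [hkw] at ha' hd' hyw'
  obtain ⟨x1, hx⟩ := Option.ne_none_iff_exists'.mp ha'.2.2.2.1
  obtain ⟨z1, hz⟩ := Option.ne_none_iff_exists'.mp ha'.2.2.2.2
  obtain ⟨y1, hy⟩ := Option.ne_none_iff_exists'.mp hyw'
  rw [hx, hz, hy] at ha' hd'
  have h1 : x1 ≠ z1 := fun e => ha'.1 (by rw [e])
  have h2 : x1 ≠ y1 := fun e => ha'.2.1 (by rw [e])
  have h3 : z1 ≠ y1 := fun e => ha'.2.2.1 (by rw [e])
  rw [← hd'] at hd
  simp only [del, rho_ss, rho_sn, sub_zero, add_zero, sub_nonpos] at hd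
  set c := val (x1 - y1) with hc
  have hxy : ¬ ∀ i, i ≤ c → x1 i = y1 i := fun h => lt_irrefl _ ((lt_val_sub h2).mpr h)
  have main : ∀ S : Set (L →₀ ℤ), z1 ∈ S → (∀ a ∈ S, ∀ b ∈ S, ∀ i, i < c → a i = b i) →
      (some x1 ∈ PS S c ↔ some y1 ∉ PS S c) →
      ∃ P : Set (Pt L), Jordan (GG L) P ∧ Jordan (GG L) Pᶜ ∧ (x ∈ P ↔ y ∉ P) ∧
        (z ∈ P ↔ w ∉ P) := by
    intro S hz1 hS hxy
    refine ⟨k ⁻¹' PS S c, (jordan_PS hS).preimage hk, (jordan_PS_compl hz1 hS).preimage hk, ?_, ?_⟩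
    · simpa only [Set.mem_preimage, hx, hy] using hxy
    · simp only [Set.mem_preimage, hz, hkw]
      exact ⟨fun _ => none_mem_PS, fun _ => some_mem_PS.mpr ⟨z1, hz1, fun _ _ => rfl⟩⟩
  rcases hd.eq_or_lt with hd | hd
  · have hzy : ¬ ∀ i, i ≤ c → z1 i = y1 i := fun h => by
      have := (lt_val_sub h3).mpr h
      rw [← hd] at this; exact lt_irrefl _ this
    apply main {x1, z1} (by simp)
    · have e : ∀ i, i < c → x1 i = z1 i := fun i hi => by
        rw [(le_val_sub h2).mp le_rfl i hi, (le_val_sub h3).mp hd.le i hi]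
      rintro a (rfl | rfl) b (rfl | rfl) i hi
      · rfl
      · exact e i hi
      · exact (e i hi).symm
      · rfl
    · refine ⟨fun _ h => ?_, fun _ => some_mem_PS.mpr ⟨x1, by simp, fun _ _ => rfl⟩⟩
      obtain ⟨a, ha, h'⟩ := some_mem_PS.mp h
      rcases ha with ha | ha <;> rw [ha] at h'
      · exact hxy fun i hi => (h' i hi).symm
      · exact hzy fun i hi => (h' i hi).symm
  · have hzy := (lt_val_sub h3).mp hd
    apply main {z1} (by simp)
    · rintro a rfl b rfl i _; rfl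
    · refine ⟨fun h => ?_, fun h => ?_⟩
      · obtain ⟨a, ha, h'⟩ := some_mem_PS.mp h
        rw [Set.mem_singleton_iff.mp ha] at h'
        exact absurd (fun i hi => (h' i hi).trans (hzy i hi)) hxy
      · exact absurd (some_mem_PS.mpr ⟨z1, Set.mem_singleton _, fun i hi => (hzy i hi).symm⟩) h

/-- star configurations -/
def IsStar (A : Finset (L →₀ ℤ)) : Prop := ∀ a ∈ A, ∀ b ∈ A, a ≠ b → val (a - b) = 0

/-- points at distance `m` along a leg of a star can be moved to the centre -/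
def Star (H : Subgroup (Equiv.Perm (Pt L))) (m : L) : Prop :=
  ∀ A : Finset (L →₀ ℤ), IsStar A → ∀ a ∈ A, ∀ u, u ≠ a → val (u - a) = m →
    ∃ h ∈ H, (∀ b ∈ A, h (some b) = some b) ∧ h (some u) ∉ PS (A : Set (L →₀ ℤ)) 0

theorem val_zero_of {f g : L →₀ ℤ} (h1 : ∀ i, i < 0 → f i = g i) (h2 : f 0 ≠ g 0) :
    f ≠ g ∧ val (f - g) = 0 := by
  refine ⟨fun e => h2 (by rw [e]), val_eq ?_ fun i hi => ?_⟩
  · rw [Finsupp.sub_apply]; exact sub_ne_zero.mpr h2
  · rw [Finsupp.sub_apply, h1 i hi, sub_self]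

theorem star_aux {H : Subgroup (Equiv.Perm (Pt L))} (hG : GG L ≤ H) {m : L} (hm : 0 < m)
    {P : Set (Pt L)} (hP : Jordan H P)
    (hinf : {n : ℤ | 2 ≤ n ∧ some (Finsupp.single (0 : L) n) ∉ P}.Infinite)
    {a' m' : L →₀ ℤ} (ha' : some a' ∉ P) (hm' : some m' ∈ P) (hne : m' ≠ a')
    (hv : val (m' - a') = m) (ha0 : ∀ i, i ≤ 0 → a' i = 0) (hm0 : ∀ i, i ≤ 0 → m' i = 0)
    {b : Pt L} (hb : b ∈ P)
    (hb' : ∀ z, b = some z → ∃ i, i ≤ 0 ∧ z i = 1) : Star H m := by
  intro A hA a ha u hu hval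
  set e := hinf.natEmbedding
  obtain ⟨idx, hidx⟩ : ∃ idx : (L →₀ ℤ) → ℕ, Set.InjOn idx (A : Set (L →₀ ℤ)) := by
    exact Set.countable_iff_exists_injOn.mp A.countable_toSet
  have huA : u ∉ A := by
    intro h
    rw [hA u h a ha hu] at hval
    exact hm.ne hval
  set f : (L →₀ ℤ) → (L →₀ ℤ) := fun x =>
    if x = u then m' else if x = a then a' else Finsupp.single 0 (e (idx x) : ℤ) with hf
  have fu : f u = m' := by simp [hf]
  have fa : f a = a' := by simp [hf, hu.symm]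
  have fo : ∀ x ∈ A, x ≠ a → f x = Finsupp.single 0 (e (idx x) : ℤ) := by
    intro x hx hxa
    have : x ≠ u := fun h => huA (h ▸ hx)
    simp [hf, this, hxa]
  have s0 : ∀ (n : ℤ) (i : L), i < 0 → Finsupp.single (0 : L) n i = 0 := fun n i hi => by
    rw [Finsupp.single_eq_of_ne hi.ne]
  have e2 : ∀ n, 2 ≤ (e n : ℤ) := fun n => (e n).2.1
  have c1 : ∀ x ∈ A, x ≠ a → ∀ g : L →₀ ℤ, (∀ i, i ≤ 0 → g i = 0) →
      f x ≠ g ∧ val (f x - g) = 0 := by
    intro x hx hxa g hg
    rw [fo x hx hxa]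
    apply val_zero_of
    · intro i hi; rw [s0 _ _ hi, hg i hi.le]
    · rw [hg 0 le_rfl, Finsupp.single_eq_same]; have := e2 (idx x); omega
  have c2 : ∀ x ∈ A, x ≠ a → val (x - u) = 0 := by
    intro x hx hxa
    have := val_sub_of_lt (sub_ne_zero.mpr hxa) (sub_ne_zero.mpr hu)
      (by rw [hval, hA x hx a ha hxa]; exact hm)
    rwa [sub_sub_sub_cancel_right, hA x hx a ha hxa] at this
  obtain ⟨g, hg, hgS⟩ := homog (insert u A) f (by
    have sym : ∀ x y : L →₀ ℤ, (f x ≠ f y ∧ val (f x - f y) = val (x - y)) →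
        (f y ≠ f x ∧ val (f y - f x) = val (y - x)) := fun x y h =>
      ⟨h.1.symm, by rw [val_sub_comm, h.2, val_sub_comm]⟩
    have k1 : ∀ x ∈ A, f x ≠ f u ∧ val (f x - f u) = val (x - u) := by
      intro x hx
      by_cases hxa : x = a
      · subst hxa
        apply sym
        rw [fu, fa, hv, hval]; exact ⟨hne, rfl⟩
      · rw [fu, c2 x hx hxa]; exact c1 x hx hxa _ hm0
    have k2 : ∀ x ∈ A, x ≠ a → f x ≠ f a ∧ val (f x - f a) = val (x - a) := by
      intro x hx hxa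
      rw [fa, hA x hx a ha hxa]; exact c1 x hx hxa _ ha0
    intro x hx y hy hxy
    rcases Finset.mem_insert.mp hx with hx | hx <;> rcases Finset.mem_insert.mp hy with hy | hy
    · exact absurd (hx.trans hy.symm) hxy
    · rw [hx]; exact sym _ _ (k1 y hy)
    · rw [hy]; exact k1 x hx
    · by_cases hxa : x = a
      · subst hxa; exact sym _ _ (k2 y hy hxy.symm)
      by_cases hya : y = a
      · subst hya; exact k2 x hx hxy
      rw [hA x hx y hy hxy, fo x hx hxa, fo y hy hya]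
      apply val_zero_of
      · intro i hi; rw [s0 _ _ hi, s0 _ _ hi]
      · rw [Finsupp.single_eq_same, Finsupp.single_eq_same]
        intro h
        exact hxy (hidx hx hy (e.injective (Subtype.ext h))))
  obtain ⟨h', hh', hmb, hfix⟩ := hP _ hm' _ hb
  have hgH : g.optionCongr ∈ H := hG (isom_mem hg)
  have hfP : ∀ x ∈ A, some (f x) ∉ P := by
    intro x hx
    by_cases hxa : x = a
    · rw [hxa, fa]; exact ha'
    · rw [fo x hx hxa]; exact (e (idx x)).2.2
  refine ⟨g.optionCongr⁻¹ * h' * g.optionCongr,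
    H.mul_mem (H.mul_mem (H.inv_mem hgH) hh') hgH, fun x hx => ?_, ?_⟩
  · have e1 : g.optionCongr (some x) = some (f x) := by
      simp [hgS x (Finset.mem_insert_of_mem hx)]
    simp only [Equiv.Perm.mul_apply]
    rw [Equiv.Perm.inv_eq_iff_eq, e1, hfix _ (hfP x hx)]
  · have e1 : g.optionCongr (some u) = some m' := by
      simp [hgS u (Finset.mem_insert_self _ _), fu]
    simp only [Equiv.Perm.mul_apply]
    rw [e1, hmb]
    rintro ⟨v, hv1, x, hx, hvx⟩
    rw [Equiv.Perm.inv_eq_iff_eq] at hv1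
    have hv2 : b = some (g v) := by simpa using hv1
    obtain ⟨i, hi, hzi⟩ := hb' _ hv2
    have hagree : ∀ j, j ≤ 0 → g v j = f x j := by
      rw [← hgS x (Finset.mem_insert_of_mem hx)]
      by_cases hvx' : v = x
      · intro j _; rw [hvx']
      · apply (lt_val_sub (g.injective.ne hvx')).mp
        rw [hg _ _ hvx']
        exact (lt_val_sub hvx').mpr hvx
    rw [hagree i hi] at hzi
    by_cases hxa : x = a
    · rw [hxa, fa, ha0 i hi] at hzi; exact zero_ne_one hzi
    · rw [fo x hx hxa] at hzi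
      rcases hi.eq_or_lt with rfl | hi
      · rw [Finsupp.single_eq_same] at hzi; have := e2 (idx x); omega
      · rw [s0 _ _ hi] at hzi; exact zero_ne_one hzi

/-- distances whose positivity is preserved by the group -/
def UU (H : Subgroup (Equiv.Perm (Pt L))) : Set L :=
  {l | 0 < l ∧ ∀ h ∈ H, ∀ x z y w, Adm x z y w → del x z y w = l → 0 < del (h x) (h z) (h y) (h w)}

theorem star_of {H : Subgroup (Equiv.Perm (Pt L))} (hG : GG L ≤ H) {l m : L} (hm : 0 < m)
    (hml : m ≤ l) (hl : l ∉ UU H) : Star H m := by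
  have hl0 : 0 < l := lt_of_lt_of_le hm hml
  have : ∃ h ∈ H, ∃ x z y w, Adm x z y w ∧ del x z y w = l ∧ del (h x) (h z) (h y) (h w) ≤ 0 := by
    by_contra hc
    apply hl
    refine ⟨hl0, fun h hh x z y w ha hd => ?_⟩
    by_contra hn
    exact hc ⟨h, hh, x, z, y, w, ha, hd, not_lt.mp hn⟩
  obtain ⟨h, hh, x, z, y, w, ha, hd, hle⟩ := this
  have hyw : y ≠ w := by
    rintro rfl
    apply hl0.ne'
    rw [← hd]; unfold del; abel
  obtain ⟨g, hg, gx, gz, gy, gw⟩ := normal ha (hd ▸ hl0) (m - l)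
  rw [hd, sub_add_cancel] at gy
  obtain ⟨P, hP, hP', h1, h2⟩ := split (ha.map h) (h.injective.ne hyw) hle
  have hk : h * g⁻¹ ∈ H := H.mul_mem hh (H.inv_mem (hG hg))
  have hR := (hP.mono hG).preimage hk
  have hR' := (hP'.mono hG).preimage hk
  rw [Set.preimage_compl] at hR'
  set R := (h * g⁻¹ : Equiv.Perm (Pt L)) ⁻¹' P with hRdef
  have tr : ∀ p, g p ∈ R ↔ h p ∈ P := fun p => by simp [hRdef]
  rw [← tr, ← tr, gx, gy] at h1
  rw [← tr, ← tr, gz, gw] at h2
  have hs : ∀ i, i ≤ 0 → Finsupp.single m (1 : ℤ) i = 0 := fun i hi => by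
    rw [Finsupp.single_eq_of_ne (lt_of_le_of_lt hi hm).ne]
  have hs0 : (Finsupp.single m (1 : ℤ)) ≠ 0 := by simp
  have main : ∀ Q : Set (Pt L), Jordan H Q →
      {n : ℤ | 2 ≤ n ∧ some (Finsupp.single (0 : L) n) ∉ Q}.Infinite →
      (some 0 ∈ Q ↔ some (Finsupp.single m (1 : ℤ)) ∉ Q) →
      (some (Finsupp.single (m - l) (1 : ℤ)) ∈ Q ↔ none ∉ Q) → Star H m := by
    intro Q hQ hinf h1 h2
    obtain ⟨b, hb, hb'⟩ : ∃ b ∈ Q, ∀ z, b = some z → ∃ i, i ≤ 0 ∧ z i = 1 := by
      by_cases hn : none ∈ Q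
      · exact ⟨none, hn, fun z hz => by cases hz⟩
      · refine ⟨_, h2.mpr hn, fun z hz => ⟨m - l, sub_nonpos.mpr hml, ?_⟩⟩
        rw [← Option.some.inj hz, Finsupp.single_eq_same]
    by_cases h0 : some 0 ∈ Q
    · exact star_aux hG hm hQ hinf (h1.mp h0) h0 hs0.symm
        (by rw [zero_sub, val_neg, val_single _ one_ne_zero]) hs (fun _ _ => rfl) hb hb'
    · exact star_aux hG hm hQ hinf h0 (by by_contra hc; exact h0 (h1.mpr hc)) hs0
        (by rw [sub_zero, val_single _ one_ne_zero]) (fun _ _ => rfl) hs hb hb'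
  by_cases hinf : {n : ℤ | 2 ≤ n ∧ some (Finsupp.single (0 : L) n) ∉ R}.Infinite
  · exact main R hR hinf h1 h2
  · apply main Rᶜ hR'
    · have hall : (Set.Ici (2 : ℤ)).Infinite := Set.Ici_infinite 2
      have := hall.sdiff (Set.not_infinite.mp hinf)
      refine this.mono ?_
      rintro n ⟨hn1, hn2⟩
      refine ⟨hn1, fun hc => hn2 ⟨hn1, hc⟩⟩
    · simp only [Set.mem_compl_iff, not_not]; tauto
    · simp only [Set.mem_compl_iff, not_not]; tauto

theorem not_UU_of_star {H : Subgroup (Equiv.Perm (Pt L))} {m : L} (hm : 0 < m)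
    (hs : Star H m) : m ∉ UU H := by
  have s0 : ∀ (n : ℤ) (i : L), i < 0 → Finsupp.single (0 : L) n i = 0 := fun n i hi => by
    rw [Finsupp.single_eq_of_ne hi.ne]
  have cc : ∀ n n' : ℤ, n ≠ n' → Finsupp.single (0 : L) n ≠ Finsupp.single 0 n' ∧
      val (Finsupp.single (0 : L) n - Finsupp.single 0 n') = 0 := fun n n' h =>
    val_zero_of (fun i hi => by rw [s0 _ _ hi, s0 _ _ hi]) (by simpa using h)
  have hs1 : ∀ i, i ≤ 0 → Finsupp.single m (1 : ℤ) i = 0 := fun i hi => by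
    rw [Finsupp.single_eq_of_ne (lt_of_le_of_lt hi hm).ne]
  have c1 : ∀ n : ℤ, n ≠ 0 → Finsupp.single (0 : L) n ≠ Finsupp.single m 1 ∧
      val (Finsupp.single (0 : L) n - Finsupp.single m 1) = 0 := fun n h =>
    val_zero_of (fun i hi => by rw [s0 _ _ hi, hs1 _ hi.le]) (by
      rw [hs1 _ le_rfl]; simpa using h)
  have hs0 : (Finsupp.single m (1 : ℤ)) ≠ Finsupp.single 0 0 := by simp
  obtain ⟨h, hh, hfix, hout⟩ := hs {Finsupp.single 0 0, Finsupp.single 0 1, Finsupp.single 0 2}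
    (by
      intro a ha b hb hab
      simp only [Finset.mem_insert, Finset.mem_singleton] at ha hb
      rcases ha with rfl | rfl | rfl <;> rcases hb with rfl | rfl | rfl <;>
        first
        | exact absurd rfl hab
        | exact (cc _ _ (by norm_num)).2)
    (Finsupp.single 0 0) (by simp) (Finsupp.single m 1) hs0
    (by rw [Finsupp.single_zero, sub_zero, val_single _ one_ne_zero])
  rintro ⟨-, hU⟩
  have hadm : Adm (some (Finsupp.single (0 : L) (0 : ℤ))) (some (Finsupp.single 0 1))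
      (some (Finsupp.single m 1)) (some (Finsupp.single 0 2)) :=
    ⟨fun e => (cc 0 1 (by norm_num)).1 (Option.some.inj e), fun e => hs0 (Option.some.inj e).symm,
      fun e => (c1 1 (by norm_num)).1 (Option.some.inj e),
      fun e => (cc 0 2 (by norm_num)).1 (Option.some.inj e),
      fun e => (cc 1 2 (by norm_num)).1 (Option.some.inj e)⟩
  have := hU h hh _ _ _ _ hadm (by
    simp only [del, rho_ss]
    rw [(c1 1 (by norm_num)).2, (cc 0 2 (by norm_num)).2, (cc 1 2 (by norm_num)).2,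
      Finsupp.single_zero, zero_sub, val_neg, val_single _ one_ne_zero]
    simp)
  have hadm' := hadm.map h
  rw [hfix (Finsupp.single 0 0) (by simp), hfix (Finsupp.single 0 1) (by simp),
    hfix (Finsupp.single 0 2) (by simp)] at this hadm'
  apply absurd this
  rw [not_lt]
  rcases hy : h (some (Finsupp.single m 1)) with _ | v
  · simp only [del, rho_ss, rho_sn]
    rw [(cc 0 2 (by norm_num)).2, (cc 1 2 (by norm_num)).2]; simp
  · rw [hy] at hout hadm'
    simp only [del, rho_ss]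
    rw [(cc 0 2 (by norm_num)).2, (cc 1 2 (by norm_num)).2, sub_zero, add_zero, sub_nonpos]
    have n0 : Finsupp.single (0 : L) (0 : ℤ) ≠ v := fun e => hadm'.2.1 (by rw [e])
    have n1 : Finsupp.single (0 : L) (1 : ℤ) ≠ v := fun e => hadm'.2.2.1 (by rw [e])
    have h0 : val (Finsupp.single (0 : L) (0 : ℤ) - v) ≤ 0 := by
      by_contra hc
      have := (lt_val_sub n0).mp (not_le.mp hc)
      exact hout (some_mem_PS.mpr ⟨_, by simp, fun i hi => (this i hi).symm⟩)
    rw [le_val_sub n1]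
    intro i hi
    rw [← (le_val_sub n0).mp le_rfl i hi, s0 _ _ (lt_of_lt_of_le hi h0),
      s0 _ _ (lt_of_lt_of_le hi h0)]

theorem UU_up {H : Subgroup (Equiv.Perm (Pt L))} (hG : GG L ≤ H) :
    ∀ a ∈ UU H, ∀ b, a ≤ b → b ∈ UU H := by
  intro a ha b hab
  by_contra hb
  exact not_UU_of_star ha.1 (star_of hG ha.1 hab hb) ha

theorem UU_inv {H : Subgroup (Equiv.Perm (Pt L))} (hG : GG L ≤ H) {h : Equiv.Perm (Pt L)}
    (hh : h ∈ H) {x z y w : Pt L} (ha : Adm x z y w) (hd : del x z y w ∈ UU H) :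
    del (h x) (h z) (h y) (h w) ∈ UU H := by
  have hpos := hd.2 h hh x z y w ha rfl
  refine ⟨hpos, fun h' hh' x' z' y' w' ha' hd' => ?_⟩
  obtain ⟨g, hg, gx, gz, gy, gw⟩ := normal (ha.map h) hpos 0
  obtain ⟨g', hg', gx', gz', gy', gw'⟩ := normal ha' (hd' ▸ hpos) 0
  rw [hd'] at gy'
  have := hd.2 (h' * g'⁻¹ * g * h)
    (H.mul_mem (H.mul_mem (H.mul_mem hh' (H.inv_mem (hG hg'))) (hG hg)) hh) x z y w ha rfl
  simp only [Equiv.Perm.mul_apply] at this
  rw [gx, gz, gy, gw, ← gx', ← gz', ← gy', ← gw'] at this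
  simpa using this

theorem extend {H : Subgroup (Equiv.Perm (Pt L))} (hG : GG L ≤ H)
    (hs : ∀ m : L, 0 < m → Star H m) (n : ℕ) :
    ∀ A : Finset (Pt L), A.card = n → ∀ f : Pt L → Pt L, Set.InjOn f A →
      ∃ h ∈ H, ∀ a ∈ A, h a = f a := by
  induction n with
  | zero =>
    intro A hA f _
    rw [Finset.card_eq_zero] at hA
    exact ⟨1, H.one_mem, by simp [hA]⟩
  | succ n ih =>
    have T : ∀ A : Finset (Pt L), A.card = n → ∀ x, x ∉ A → ∀ y, y ∉ A →
        ∃ h ∈ H, (∀ a ∈ A, h a = a) ∧ h x = y := by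
      intro A hA x hx y hy
      rcases A.eq_empty_or_nonempty with rfl | ⟨a0, ha0⟩
      · obtain ⟨k, hk, hkx⟩ := exists_none x
        obtain ⟨k', hk', hky⟩ := exists_none y
        refine ⟨k'⁻¹ * k, H.mul_mem (H.inv_mem (hG hk')) (hG hk), by simp, ?_⟩
        rw [Equiv.Perm.mul_apply, Equiv.Perm.inv_eq_iff_eq, hkx, hky]
      obtain ⟨idx, hidx⟩ := Set.countable_iff_exists_injOn.mp A.countable_toSet
      set c : Pt L → (L →₀ ℤ) := fun a => Finsupp.single 0 (idx a : ℤ) with hc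
      have s0 : ∀ (n : ℤ) (i : L), i < 0 → Finsupp.single (0 : L) n i = 0 := fun n i hi => by
        rw [Finsupp.single_eq_of_ne hi.ne]
      obtain ⟨k, hk, hkA⟩ := ih A hA (fun a => some (c a)) (by
        intro a ha b hb hab
        apply hidx ha hb
        have := Finsupp.single_injective _ (Option.some.inj hab)
        exact_mod_cast this)
      set B : Finset (L →₀ ℤ) := A.image c with hB
      have hBc : ∀ a ∈ B, ∀ i, i < 0 → a i = 0 := by
        intro a ha i hi
        obtain ⟨a', _, rfl⟩ := Finset.mem_image.mp ha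
        exact s0 _ _ hi
      have hstar : IsStar B := by
        intro a ha b hb hab
        refine (val_zero_of (fun i hi => by rw [hBc a ha i hi, hBc b hb i hi]) ?_).2
        obtain ⟨a', _, rfl⟩ := Finset.mem_image.mp ha
        obtain ⟨b', _, rfl⟩ := Finset.mem_image.mp hb
        intro e
        apply hab
        simp only [hc, Finsupp.single_eq_same] at e ⊢
        rw [e]
      have out : ∀ p, p ∉ A → ∃ h ∈ H, (∀ b ∈ B, h (some b) = some b) ∧
          h (k p) ∉ PS (B : Set (L →₀ ℤ)) 0 := by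
        intro p hp
        by_cases hin : k p ∈ PS (B : Set (L →₀ ℤ)) 0
        · obtain ⟨u, hu, b, hb, hub⟩ := hin
          have hne : u ≠ b := by
            rintro rfl
            obtain ⟨a', ha', e⟩ := Finset.mem_image.mp hb
            apply hp
            have : k p = k a' := by rw [hu, hkA a' ha', e]
            rwa [k.injective this]
          rw [hu]
          exact hs _ ((lt_val_sub hne).mpr hub) B hstar b hb u hne rfl
        · exact ⟨1, H.one_mem, fun _ _ => rfl, hin⟩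
      obtain ⟨h1, hh1, f1, o1⟩ := out x hx
      obtain ⟨h2, hh2, f2, o2⟩ := out y hy
      obtain ⟨g, hg, g1, g2⟩ := jordan_PS_compl (S := (B : Set (L →₀ ℤ))) (c := 0) (a0 := c a0)
        (Finset.mem_image_of_mem _ ha0)
        (fun a ha b hb i hi => by rw [hBc a ha i hi, hBc b hb i hi]) _ o1 _ o2
      refine ⟨k⁻¹ * h2⁻¹ * g * h1 * k, H.mul_mem (H.mul_mem (H.mul_mem (H.mul_mem (H.inv_mem hk)
        (H.inv_mem hh2)) (hG hg)) hh1) hk, fun a ha => ?_, ?_⟩
      · have hb : c a ∈ B := Finset.mem_image_of_mem _ ha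
        simp only [Equiv.Perm.mul_apply]
        rw [Equiv.Perm.inv_eq_iff_eq, Equiv.Perm.inv_eq_iff_eq, hkA a ha, f1 _ hb, f2 _ hb]
        apply g2
        simp only [Set.mem_compl_iff, not_not]
        exact some_mem_PS.mpr ⟨_, hb, fun _ _ => rfl⟩
      · simp only [Equiv.Perm.mul_apply]
        rw [Equiv.Perm.inv_eq_iff_eq, Equiv.Perm.inv_eq_iff_eq, g1]
    intro A hA f hf
    obtain ⟨x, B, hxB, rfl, hB⟩ := Finset.card_eq_succ.mp hA
    obtain ⟨h, hh, hB'⟩ := ih B hB f (hf.mono (by simp))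
    have hy : h⁻¹ (f x) ∉ B := by
      intro hy
      have h1 := hB' _ hy
      rw [show h (h⁻¹ (f x)) = f x by simp] at h1
      have := hf (by simp) (Finset.mem_coe.mpr (Finset.mem_insert_of_mem hy)) h1
      exact hxB (this ▸ hy)
    obtain ⟨t, ht, t1, t2⟩ := T B hB x hxB _ hy
    refine ⟨h * t, H.mul_mem hh ht, fun a ha => ?_⟩
    rw [Equiv.Perm.mul_apply]
    rcases Finset.mem_insert.mp ha with rfl | ha
    · rw [t2]; simp
    · rw [t1 a ha, hB' a ha]

theorem UU_nonempty {H : Subgroup (Equiv.Perm (Pt L))} (hG : GG L ≤ H)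
    (hcl : ∀ σ : Equiv.Perm (Pt L), (∀ A : Finset (Pt L), ∃ g ∈ H, ∀ a ∈ A, g a = σ a) → σ ∈ H)
    (hne : H ≠ ⊤) : (UU H).Nonempty := by
  by_contra hc
  apply hne
  rw [eq_top_iff]
  intro σ _
  apply hcl
  intro A
  refine extend hG (fun m hm => star_of hG hm le_rfl fun h => hc ⟨m, h⟩) _ A rfl σ
    σ.injective.injOn

end Pool.Agent.H461Z.MC
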