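import Mathlib

set_option autoImplicit false
set_option linter.unusedSectionVars false

namespace Pool.Agent.H461Z.MC

open Classical

variable {L : Type} [AddCommGroup L] [LinearOrder L] [IsOrderedAddMonoid L]

/-- least exponent -/
noncomputable def val (f : L →₀ ℤ) : L :=
  if h : f.support.Nonempty then f.support.min' h else 0

theorem val_spec {f : L →₀ ℤ} (hf : f ≠ 0) : f (val f) ≠ 0 ∧ ∀ i, i < val f → f i = 0 := by
  have h : f.support.Nonempty := Finsupp.support_nonempty_iff.mpr hf
  unfold val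
  rw [dif_pos h]
  refine ⟨Finsupp.mem_support_iff.mp (Finset.min'_mem _ h), fun i hi => ?_⟩
  by_contra hne
  exact absurd (Finset.min'_le _ i (Finsupp.mem_support_iff.mpr hne)) (not_le.mpr hi)

theorem val_eq {f : L →₀ ℤ} {c : L} (h1 : f c ≠ 0) (h2 : ∀ i, i < c → f i = 0) : val f = c := by
  have hf : f ≠ 0 := by rintro rfl; exact h1 rfl
  obtain ⟨h3, h4⟩ := val_spec hf
  rcases lt_trichotomy (val f) c with h | h | h
  · exact absurd (h2 _ h) h3
  · exact h
  · exact absurd (h4 _ h) h1

theorem le_val {f : L →₀ ℤ} (hf : f ≠ 0) {c : L} : c ≤ val f ↔ ∀ i, i < c → f i = 0 := by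
  obtain ⟨h3, h4⟩ := val_spec hf
  constructor
  · intro h i hi; exact h4 i (lt_of_lt_of_le hi h)
  · intro h; by_contra hc; exact h3 (h _ (not_le.mp hc))

theorem lt_val {f : L →₀ ℤ} (hf : f ≠ 0) {c : L} : c < val f ↔ ∀ i, i ≤ c → f i = 0 := by
  obtain ⟨h3, h4⟩ := val_spec hf
  constructor
  · intro h i hi; exact h4 i (lt_of_le_of_lt hi h)
  · intro h; by_contra hc; exact h3 (h _ (not_lt.mp hc))

theorem val_neg (f : L →₀ ℤ) : val (-f) = val f := by
  unfold val; simp

theorem val_sub_comm (f g : L →₀ ℤ) : val (f - g) = val (g - f) := by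
  rw [← val_neg, neg_sub]

theorem val_single (c : L) {n : ℤ} (hn : n ≠ 0) : val (Finsupp.single c n) = c := by
  apply val_eq
  · simpa using hn
  · intro i hi; rw [Finsupp.single_eq_of_ne hi.ne]

theorem val_add_eq {f g : L →₀ ℤ} (hf : f ≠ 0) (hg : ∀ i, i ≤ val f → g i = 0) :
    f + g ≠ 0 ∧ val (f + g) = val f := by
  obtain ⟨h3, h4⟩ := val_spec hf
  have h5 : (f + g) (val f) ≠ 0 := by
    rw [Finsupp.add_apply, hg _ le_rfl, add_zero]; exact h3
  refine ⟨fun h => h5 (by rw [h]; rfl), val_eq h5 fun i hi => ?_⟩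
  rw [Finsupp.add_apply, hg _ hi.le, h4 _ hi, add_zero]

theorem min_le_val_add {f g : L →₀ ℤ} (hf : f ≠ 0) (hg : g ≠ 0) (hfg : f + g ≠ 0) :
    min (val f) (val g) ≤ val (f + g) := by
  rw [le_val hfg]
  intro i hi
  rw [Finsupp.add_apply, (val_spec hf).2 i (lt_of_lt_of_le hi (min_le_left _ _)),
    (val_spec hg).2 i (lt_of_lt_of_le hi (min_le_right _ _)), add_zero]

/-- shift of exponents -/
noncomputable def shift (c : L) : (L →₀ ℤ) ≃+ (L →₀ ℤ) := Finsupp.domCongr (Equiv.addRight c)

theorem shift_apply (c : L) (f : L →₀ ℤ) (i : L) : shift c f i = f (i - c) := by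
  simp [shift, Finsupp.domCongr_apply, Finsupp.equivMapDomain_apply, sub_eq_add_neg]

theorem shift_ne {c : L} {f : L →₀ ℤ} (hf : f ≠ 0) : shift c f ≠ 0 := by
  simpa using hf

theorem val_shift (c : L) {f : L →₀ ℤ} (hf : f ≠ 0) : val (shift c f) = val f + c := by
  obtain ⟨h3, h4⟩ := val_spec hf
  apply val_eq
  · rw [shift_apply]; simpa using h3
  · intro i hi; rw [shift_apply]; exact h4 _ (sub_lt_iff_lt_add.mpr hi)

theorem shift_shift (c d : L) (f : L →₀ ℤ) : shift c (shift d f) = shift (c + d) f := by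
  ext i; simp only [shift_apply]; congr 1; abel

theorem shift_zero (f : L →₀ ℤ) : shift 0 f = f := by
  ext i; simp [shift_apply]

/-- elements that vanish or have valuation in an up-closed set -/
def cone (V : Set L) (hV : ∀ a ∈ V, ∀ b, a ≤ b → b ∈ V) : AddSubgroup (L →₀ ℤ) where
  carrier := {u | u = 0 ∨ val u ∈ V}
  zero_mem' := Or.inl rfl
  neg_mem' := by
    rintro u (h | h)
    · left; simp [h]
    · right; rwa [val_neg]
  add_mem' := by
    intro u w hu hw
    by_cases h0 : u = 0
    · simpa [h0] using hw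
    by_cases h1 : w = 0
    · simpa [h1] using hu
    by_cases h2 : u + w = 0
    · exact Or.inl h2
    right
    have hu' := hu.resolve_left h0
    have hw' := hw.resolve_left h1
    have := min_le_val_add h0 h1 h2
    rcases min_choice (val u) (val w) with h | h <;> rw [h] at this
    · exact hV _ hu' _ this
    · exact hV _ hw' _ this

/-- exchange of the cosets of `x` and `y` -/
noncomputable def swapFun (C : AddSubgroup (L →₀ ℤ)) (x y u : L →₀ ℤ) : L →₀ ℤ :=
  if u - x ∈ C then u + (y - x) else if u - y ∈ C then u - (y - x) else u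

theorem swapFun_invol (C : AddSubgroup (L →₀ ℤ)) {x y : L →₀ ℤ} (h : y - x ∉ C) :
    Function.Involutive (swapFun C x y) := by
  intro u
  by_cases h1 : u - x ∈ C
  · have e : swapFun C x y u = u + (y - x) := by simp [swapFun, h1]
    have h2 : u + (y - x) - x ∉ C := by
      intro h2; apply h
      have := C.sub_mem h2 h1
      convert this using 1; abel
    have h3 : u + (y - x) - y ∈ C := by convert h1 using 1; abel
    rw [e]; simp only [swapFun, if_neg h2, if_pos h3]; abel
  · by_cases h2 : u - y ∈ C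
    · have e : swapFun C x y u = u - (y - x) := by simp only [swapFun, if_neg h1, if_pos h2]
      have h3 : u - (y - x) - x ∈ C := by convert h2 using 1; abel
      rw [e]; simp only [swapFun, if_pos h3]; abel
    · have e : swapFun C x y u = u := by simp only [swapFun, if_neg h1, if_neg h2]
      rw [e, e]

theorem swapFun_sub (C : AddSubgroup (L →₀ ℤ)) (x y : L →₀ ℤ) {a b : L →₀ ℤ} (h : a - b ∈ C) :
    swapFun C x y a - swapFun C x y b = a - b := by
  have e : ∀ z, a - z ∈ C ↔ b - z ∈ C := by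
    intro z
    constructor
    · intro h1; have := C.sub_mem h1 h; convert this using 1; abel
    · intro h1; have := C.add_mem h1 h; convert this using 1; abel
  unfold swapFun
  simp only [e]
  split_ifs <;> abel

theorem swap_val (V : Set L) (hV : ∀ a ∈ V, ∀ b, a ≤ b → b ∈ V) {x y : L →₀ ℤ}
    (h : y - x ∉ cone V hV) {a b : L →₀ ℤ} (hab : a ≠ b) :
    val (swapFun (cone V hV) x y a - swapFun (cone V hV) x y b) = val (a - b) ∨
    (val (y - x) ≤ val (swapFun (cone V hV) x y a - swapFun (cone V hV) x y b) ∧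
      val (swapFun (cone V hV) x y a - swapFun (cone V hV) x y b) ∉ V ∧
      val (y - x) ≤ val (a - b) ∧ val (a - b) ∉ V) := by
  set s := swapFun (cone V hV) x y with hs
  have hinv : Function.Involutive s := swapFun_invol _ h
  have hyx : y - x ≠ 0 := fun h0 => h (Or.inl h0)
  have hab' : a - b ≠ 0 := sub_ne_zero.mpr hab
  have hsab : s a - s b ≠ 0 := sub_ne_zero.mpr (hinv.injective.ne hab)
  have hD : ∀ u i, i < val (y - x) → s u i = u i := by
    intro u i hi
    have := (val_spec hyx).2 i hi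
    rw [hs]; unfold swapFun
    split_ifs
    · rw [Finsupp.add_apply, this, add_zero]
    · rw [Finsupp.sub_apply, this, sub_zero]
    · rfl
  by_cases h1 : a - b ∈ cone V hV
  · left; rw [hs, swapFun_sub _ _ _ h1]
  by_cases h2 : s a - s b ∈ cone V hV
  · left
    have := swapFun_sub _ x y h2
    rw [← hs, hinv, hinv] at this
    rw [this]
  by_cases h3 : val (y - x) ≤ val (a - b)
  · right
    refine ⟨?_, fun h4 => h2 (Or.inr h4), h3, fun h4 => h1 (Or.inr h4)⟩
    rw [le_val hsab]
    intro i hi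
    rw [Finsupp.sub_apply, hD _ _ hi, hD _ _ hi, ← Finsupp.sub_apply]
    exact (le_val hab').mp h3 i hi
  · left
    push Not at h3
    apply val_eq
    · rw [Finsupp.sub_apply, hD _ _ h3, hD _ _ h3, ← Finsupp.sub_apply]
      exact (val_spec hab').1
    · intro i hi
      rw [Finsupp.sub_apply, hD _ _ (hi.trans h3), hD _ _ (hi.trans h3), ← Finsupp.sub_apply]
      exact (val_spec hab').2 i hi

theorem ioi_up (c : L) : ∀ a ∈ Set.Ioi c, ∀ b, a ≤ b → b ∈ Set.Ioi c :=
  fun _ ha _ hb => lt_of_lt_of_le ha hb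

theorem mem_cone_ioi {c : L} {u : L →₀ ℤ} :
    u ∈ cone (Set.Ioi c) (ioi_up c) ↔ ∀ i, i ≤ c → u i = 0 := by
  by_cases hu : u = 0
  · subst hu; simp
  · rw [← lt_val hu]
    exact ⟨fun h => h.resolve_left hu, fun h => Or.inr h⟩

/-- isometries -/
def Isom (g : Equiv.Perm (L →₀ ℤ)) : Prop := ∀ a b, a ≠ b → val (g a - g b) = val (a - b)

theorem exists_swap {x y : L →₀ ℤ} (hxy : x ≠ y) :
    ∃ g : Equiv.Perm (L →₀ ℤ), Isom g ∧ g x = y ∧
      ∀ u, u ≠ x → u ≠ y → val (u - x) ≤ val (x - y) → val (u - y) ≤ val (x - y) → g u = u := by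
  have hyx : y - x ≠ 0 := sub_ne_zero.mpr hxy.symm
  have h : y - x ∉ cone (Set.Ioi (val (y - x))) (ioi_up _) := by
    rintro (h | h)
    · exact hyx h
    · exact lt_irrefl _ h
  refine ⟨(swapFun_invol _ h).toPerm, ?_, ?_, ?_⟩
  · intro a b hab
    rcases swap_val _ _ h hab with h1 | ⟨h1, h2, h3, h4⟩
    · exact h1
    · have h2' := not_lt.mp h2
      have h4' := not_lt.mp h4
      exact (le_antisymm h2' h1).trans (le_antisymm h3 h4')
  · show swapFun _ x y x = y
    unfold swapFun
    rw [if_pos (by rw [sub_self]; exact AddSubgroup.zero_mem _)]; abel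
  · intro u hx hy h1 h2
    show swapFun _ x y u = u
    unfold swapFun
    rw [val_sub_comm x y] at h1 h2
    rw [if_neg, if_neg]
    · rintro (h3 | h3)
      · exact hy (sub_eq_zero.mp h3)
      · exact absurd h3 (not_lt.mpr h2)
    · rintro (h3 | h3)
      · exact hx (sub_eq_zero.mp h3)
      · exact absurd h3 (not_lt.mpr h1)

theorem homog (S : Finset (L →₀ ℤ)) (f : (L →₀ ℤ) → (L →₀ ℤ))
    (hf : ∀ a ∈ S, ∀ b ∈ S, a ≠ b → f a ≠ f b ∧ val (f a - f b) = val (a - b)) :
    ∃ g : Equiv.Perm (L →₀ ℤ), Isom g ∧ ∀ a ∈ S, g a = f a := by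
  induction S using Finset.induction_on with
  | empty => exact ⟨1, fun a b _ => rfl, by simp⟩
  | insert m S hm ih =>
    obtain ⟨g, hg, hgS⟩ := ih (fun a ha b hb hab =>
      hf a (Finset.mem_insert_of_mem ha) b (Finset.mem_insert_of_mem hb) hab)
    by_cases h : g m = f m
    · refine ⟨g, hg, fun a ha => ?_⟩
      rcases Finset.mem_insert.mp ha with rfl | ha
      · exact h
      · exact hgS a ha
    · obtain ⟨s, hs, hs1, hs2⟩ := exists_swap h
      refine ⟨s * g, fun a b hab => ?_, fun a ha => ?_⟩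
      · show val (s (g a) - s (g b)) = _
        rw [hs _ _ (g.injective.ne hab), hg _ _ hab]
      · rcases Finset.mem_insert.mp ha with rfl | ha
        · exact hs1
        · show s (g a) = f a
          have ham : a ≠ m := fun e => hm (e ▸ ha)
          obtain ⟨h1, h2⟩ := hf a (Finset.mem_insert_of_mem ha) m (Finset.mem_insert_self _ _) ham
          have h3 : g a ≠ g m := g.injective.ne ham
          have h4 : val (g a - g m) = val (g a - f m) := by
            rw [hg _ _ ham, hgS a ha, h2]
          have h5 : g a ≠ f m := by rw [hgS a ha]; exact h1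
          have h6 : min (val (g m - g a)) (val (g a - f m)) ≤ val (g m - g a + (g a - f m)) :=
            min_le_val_add (sub_ne_zero.mpr h3.symm) (sub_ne_zero.mpr h5)
              (by rw [sub_add_sub_cancel]; exact sub_ne_zero.mpr h)
          rw [sub_add_sub_cancel, val_sub_comm (g m) (g a), h4, min_self] at h6
          rw [hs2 _ h3 h5 (h4 ▸ h6) h6, hgS a ha]

end Pool.Agent.H461Z.MC
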